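import Pool.Agent.R779.FJ.Col

/-!
# Kernels in the groups of units which are locally supported by idempotents

`cU e` is the group of the units `u` of the ring `A` with `u - 1` in `e A e`; it is isomorphic to the
group of units of the corner ring `e A e` if `e` is an idempotent.
-/

set_option autoImplicit false

namespace Pool.Agent.H40E9.FK

open Pool.Agent.Y110.FJ
open Pool.Agent.Y462.SS (Closed)

section core

variable {A : Type} [Ring A]

/-- the units `u` of `A` with `u - 1 ∈ e A e` -/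
def cU (e : A) : Subgroup Aˣ where
  carrier := {u | e * ((u : A) - 1) = (u : A) - 1 ∧ ((u : A) - 1) * e = (u : A) - 1}
  one_mem' := by simp
  mul_mem' := by
    rintro u v ⟨h1, h2⟩ ⟨h3, h4⟩
    refine ⟨?_, ?_⟩
    · have : ((u * v : Aˣ) : A) - 1 = ((u : A) - 1) * v + ((v : A) - 1) := by
        push_cast; noncomm_ring
      rw [this, mul_add, ← mul_assoc, h1, h3]
    · have : ((u * v : Aˣ) : A) - 1 = ((u : A) - 1) + u * ((v : A) - 1) := by
        push_cast; noncomm_ring
      rw [this, add_mul, mul_assoc, h2, h4]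
  inv_mem' := by
    rintro u ⟨h1, h2⟩
    have e1 : ((u⁻¹ : Aˣ) : A) - 1 = -(((u : A) - 1) * ((u⁻¹ : Aˣ) : A)) := by
      rw [sub_mul, Units.mul_inv, one_mul, neg_sub]
    have e2 : ((u⁻¹ : Aˣ) : A) - 1 = -(((u⁻¹ : Aˣ) : A) * ((u : A) - 1)) := by
      rw [mul_sub, Units.inv_mul, mul_one, neg_sub]
    refine ⟨?_, ?_⟩
    · rw [e1, mul_neg, ← mul_assoc, h1]
    · rw [e2, neg_mul, mul_assoc, h2]

theorem mem_cU {e : A} {u : Aˣ} :
    u ∈ cU e ↔ e * ((u : A) - 1) = (u : A) - 1 ∧ ((u : A) - 1) * e = (u : A) - 1 := Iff.rfl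

theorem cU_inj {e : A} {B : Type} [Ring B] (ψ : A →+ B) (h1 : ψ 1 = 1)
    (hm : ∀ a b, ψ (a * e * b) = ψ a * ψ b)
    (hi : ∀ a, e * a = a → a * e = a → ψ a = 0 → a = 0) :
    ∃ f : cU e →* Bˣ, Function.Injective f ∧ ∀ u, ((f u : Bˣ) : B) = ψ ((u : Aˣ) : A) := by
  have h0 : ψ (1 - e) = 0 := by
    have := hm 1 1
    rw [one_mul, mul_one, h1, mul_one] at this
    rw [map_sub, this, h1, sub_self]
  have hmul : ∀ u v : Aˣ, u ∈ cU e → v ∈ cU e → ψ ((u : A) * v) = ψ u * ψ v := by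
    intro u v hu hv
    have h3 : (u : A) * v = u * e * v + (1 - e) := by
      have a1 : ((u : A) - 1) * e = (u : A) - 1 := hu.2
      have a2 : e * ((v : A) - 1) = (v : A) - 1 := hv.1
      have b1 : (u : A) * e = u - 1 + e := by
        rw [sub_mul, one_mul] at a1
        rw [← a1]; abel
      have b2 : e * (v : A) = v - 1 + e := by
        rw [mul_sub, mul_one] at a2
        rw [← a2]; abel
      have b3 : (u : A) * e * v = u * (e * v) := mul_assoc _ _ _
      rw [b3, b2, mul_add, mul_sub, mul_one, b1]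
      abel
    rw [h3, map_add, hm, h0, add_zero]
  let F : cU e →* B :=
    { toFun := fun u => ψ ((u : Aˣ) : A)
      map_one' := by simpa using h1
      map_mul' := fun u v => by
        have := hmul u v u.2 v.2
        simpa using this }
  refine ⟨F.toHomUnits, ?_, fun u => rfl⟩
  rw [injective_iff_map_eq_one]
  intro u hu
  have h4 : ψ ((u : Aˣ) : A) = 1 := congrArg (fun x : Bˣ => (x : B)) hu
  have h5 : ψ (((u : Aˣ) : A) - 1) = 0 := by rw [map_sub, h4, h1, sub_self]
  have h6 := hi _ u.2.1 u.2.2 h5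
  apply Subtype.ext
  apply Units.ext
  simpa using sub_eq_zero.1 h6

/-! ### `2 × 2` matrices -/

/-- the diagonal idempotent -/
abbrev dg (n : ℕ) (e : A) : Matrix (Fin n) (Fin n) A := Matrix.diagonal fun _ => e

/-- the invertible `n × n` matrices over `e A e` -/
abbrev cGL (n : ℕ) (e : A) : Subgroup (Matrix (Fin n) (Fin n) A)ˣ := cU (dg n e)

/-- the embedding in the first entry -/
def cn : A →* Matrix (Fin 2) (Fin 2) A where
  toFun a := !![a, 0; 0, 1]
  map_one' := by
    ext i j; fin_cases i <;> fin_cases j <;> rfl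
  map_mul' a b := by
    ext i j
    fin_cases i <;> fin_cases j <;> simp [Matrix.mul_apply, Fin.sum_univ_two]

/-- lower elementary matrices -/
def lo (x : A) : (Matrix (Fin 2) (Fin 2) A)ˣ where
  val := !![1, 0; x, 1]
  inv := !![1, 0; -x, 1]
  val_inv := by
    ext i j
    fin_cases i <;> fin_cases j <;> simp [Matrix.mul_apply, Fin.sum_univ_two]
  inv_val := by
    ext i j
    fin_cases i <;> fin_cases j <;> simp [Matrix.mul_apply, Fin.sum_univ_two]

/-- upper elementary matrices -/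
def up (x : A) : (Matrix (Fin 2) (Fin 2) A)ˣ where
  val := !![1, x; 0, 1]
  inv := !![1, -x; 0, 1]
  val_inv := by
    ext i j
    fin_cases i <;> fin_cases j <;> simp [Matrix.mul_apply, Fin.sum_univ_two]
  inv_val := by
    ext i j
    fin_cases i <;> fin_cases j <;> simp [Matrix.mul_apply, Fin.sum_univ_two]

theorem lo_mem {e x : A} (h1 : e * x = x) (h2 : x * e = x) : lo x ∈ cGL 2 e := by
  refine ⟨?_, ?_⟩ <;>
  · ext i j
    fin_cases i <;> fin_cases j <;>
      simp [lo, Matrix.diagonal_mul, Matrix.mul_diagonal, h1, h2]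

theorem up_mem {e x : A} (h1 : e * x = x) (h2 : x * e = x) : up x ∈ cGL 2 e := by
  refine ⟨?_, ?_⟩ <;>
  · ext i j
    fin_cases i <;> fin_cases j <;>
      simp [up, Matrix.diagonal_mul, Matrix.mul_diagonal, h1, h2]

theorem cn_mem {e : A} {u : Aˣ} (hu : u ∈ cU e) : Units.map cn u ∈ cGL 2 e := by
  refine ⟨?_, ?_⟩ <;>
  · ext i j
    fin_cases i <;> fin_cases j <;>
      simp [cn, Matrix.diagonal_mul, Matrix.mul_diagonal, hu.1, hu.2]

/-- **stable conjugation** -/
theorem stab {e : A} (he : e * e = e) (γ : Aˣ) :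
    ∃ h ∈ cGL 2 e, ∀ u : Aˣ, u ∈ cU e → γ * u * γ⁻¹ ∈ cU e →
      h * Units.map cn u * h⁻¹ = Units.map cn (γ * u * γ⁻¹) := by
  let α : A := e * γ * e
  let β : A := e * ((γ⁻¹ : Aˣ) : A) * e
  have ha1 : e * α = α := by show e * (e * γ * e) = e * γ * e; rw [← mul_assoc, ← mul_assoc, he]
  have ha2 : α * e = α := by show e * γ * e * e = e * γ * e; rw [mul_assoc _ e e, he]
  have hb1 : e * β = β := by
    show e * (e * ((γ⁻¹ : Aˣ) : A) * e) = e * ((γ⁻¹ : Aˣ) : A) * e; rw [← mul_assoc, ← mul_assoc, he]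
  have hb2 : β * e = β := by
    show e * ((γ⁻¹ : Aˣ) : A) * e * e = e * ((γ⁻¹ : Aˣ) : A) * e; rw [mul_assoc _ e e, he]
  have hne1 : e * (-e) = -e := by rw [mul_neg, he]
  have hne2 : -e * e = -e := by rw [neg_mul, he]
  have hnb1 : e * (-β) = -β := by rw [mul_neg, hb1]
  have hnb2 : -β * e = -β := by rw [neg_mul, hb2]
  refine ⟨(up (-e) * lo e * up (-e)) * (lo α * up (-β) * lo α),
    mul_mem (mul_mem (mul_mem (up_mem hne1 hne2) (lo_mem he he)) (up_mem hne1 hne2))
      (mul_mem (mul_mem (lo_mem ha1 ha2) (up_mem hnb1 hnb2)) (lo_mem ha1 ha2)), ?_⟩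
  intro u hu hu'
  rw [mul_inv_eq_iff_eq_mul]
  -- the elements `a = u - 1` and `a' = γ a γ⁻¹`
  set a : A := (u : A) - 1 with ha
  set a' : A := ((γ * u * γ⁻¹ : Aˣ) : A) - 1 with ha'
  have hua : (u : A) = 1 + a := by rw [ha]; abel
  have hua' : ((γ * u * γ⁻¹ : Aˣ) : A) = 1 + a' := by rw [ha']; abel
  have h1 : e * a = a := hu.1
  have h2 : a * e = a := hu.2
  have h1' : e * a' = a' := hu'.1
  have h2' : a' * e = a' := hu'.2
  have hga : (γ : A) * a = a' * γ := by
    rw [ha, ha']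
    push_cast
    rw [mul_sub, sub_mul, mul_assoc ((γ : A) * (u : A)), Units.inv_mul, mul_one, mul_one, one_mul]
  have hgi : ((γ⁻¹ : Aˣ) : A) * a' = a * ((γ⁻¹ : Aˣ) : A) := by
    have : a' = γ * a * ((γ⁻¹ : Aˣ) : A) := by rw [hga, mul_assoc, Units.mul_inv, mul_one]
    rw [this, ← mul_assoc, ← mul_assoc, Units.inv_mul, one_mul]
  have c1 : α * a = a' * α := by
    show e * γ * e * a = a' * (e * γ * e)
    have l : e * γ * e * a = e * (γ * a) := by rw [mul_assoc _ e a, h1, mul_assoc]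
    have r : a' * (e * γ * e) = (a' * e) * γ * e := by noncomm_ring
    rw [l, r, hga, h2', ← hga, mul_assoc, h2, hga, ← mul_assoc, h1']
  have c1' : α * a = γ * a := by
    show e * γ * e * a = γ * a
    have l : e * γ * e * a = e * (γ * a) := by rw [mul_assoc _ e a, h1, mul_assoc]
    rw [l, hga, ← mul_assoc, h1']
  have c2 : β * (α * a) = a := by
    rw [c1', hga]
    show e * ((γ⁻¹ : Aˣ) : A) * e * (a' * γ) = a
    have : e * ((γ⁻¹ : Aˣ) : A) * e * (a' * γ) = e * (((γ⁻¹ : Aˣ) : A) * (e * a')) * γ := by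
      noncomm_ring
    rw [this, h1', hgi, ← mul_assoc, h1, mul_assoc, Units.inv_mul, mul_one]
  have c3 : (α * a) * β = a' := by
    rw [c1']
    show (γ : A) * a * (e * ((γ⁻¹ : Aˣ) : A) * e) = a'
    have : (γ : A) * a * (e * ((γ⁻¹ : Aˣ) : A) * e) = γ * (a * e) * ((γ⁻¹ : Aˣ) : A) * e := by
      noncomm_ring
    rw [this, h2, hga, mul_assoc a', Units.mul_inv, mul_one, h2']
  have step : ((lo α * up (-β) * lo α : (Matrix (Fin 2) (Fin 2) A)ˣ) : Matrix (Fin 2) (Fin 2) A) *
      cn (1 + a) = !![1, 0; 0, 1 + a'] * ((lo α * up (-β) * lo α : (Matrix (Fin 2) (Fin 2) A)ˣ) :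
        Matrix (Fin 2) (Fin 2) A) := by
    have v : ((lo α * up (-β) * lo α : (Matrix (Fin 2) (Fin 2) A)ˣ) : Matrix (Fin 2) (Fin 2) A) =
        !![1 - β * α, -β; 2 * α - α * β * α, 1 - α * β] := by
      push_cast
      ext i j
      fin_cases i <;> fin_cases j <;>
        simp [lo, up, Matrix.mul_apply, Fin.sum_univ_two] <;> noncomm_ring
    rw [v]
    have d1 : a' * α * β = a' := by rw [← c1, c3]
    ext i j
    fin_cases i <;> fin_cases j
    · simp [cn, Matrix.mul_apply, Fin.sum_univ_two]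
      have : (1 - β * α) * (1 + a) = 1 - β * α + a - β * (α * a) := by noncomm_ring
      rw [this, c2]; abel
    · simp [cn, Matrix.mul_apply, Fin.sum_univ_two]
    · simp [cn, Matrix.mul_apply, Fin.sum_univ_two]
      have l : (2 * α - α * β * α) * (1 + a) =
        2 * α - α * β * α + 2 * (α * a) - α * (β * (α * a)) := by noncomm_ring
      have r : (1 + a') * (2 * α - α * β * α) =
        2 * α - α * β * α + 2 * (a' * α) - (a' * α * β) * α := by noncomm_ring
      rw [l, r, c2, d1, c1]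
    · simp [cn, Matrix.mul_apply, Fin.sum_univ_two]
      have r : (1 + a') * (1 - α * β) = 1 - α * β + a' - a' * α * β := by noncomm_ring
      rw [r, d1]; abel
  have step2 : ((up (-e) * lo e * up (-e) : (Matrix (Fin 2) (Fin 2) A)ˣ) :
      Matrix (Fin 2) (Fin 2) A) * !![1, 0; 0, 1 + a'] = cn (1 + a') *
        ((up (-e) * lo e * up (-e) : (Matrix (Fin 2) (Fin 2) A)ˣ) : Matrix (Fin 2) (Fin 2) A) := by
    have v : ((up (-e) * lo e * up (-e) : (Matrix (Fin 2) (Fin 2) A)ˣ) :
        Matrix (Fin 2) (Fin 2) A) = !![1 - e, -e; e, 1 - e] := by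
      push_cast
      ext i j
      fin_cases i <;> fin_cases j <;>
        simp [lo, up, Matrix.mul_apply, Fin.sum_univ_two, mul_add, add_mul, he] <;> abel
    rw [v]
    ext i j
    fin_cases i <;> fin_cases j
    · simp [cn, Matrix.mul_apply, Fin.sum_univ_two, add_mul, mul_sub, h2']
    · simp [cn, Matrix.mul_apply, Fin.sum_univ_two, mul_add, add_mul, h1', h2']
      abel
    · simp [cn, Matrix.mul_apply, Fin.sum_univ_two]
    · simp [cn, Matrix.mul_apply, Fin.sum_univ_two, mul_add, sub_mul, h1']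
  apply Units.ext
  show ((up (-e) * lo e * up (-e) : (Matrix (Fin 2) (Fin 2) A)ˣ) : Matrix (Fin 2) (Fin 2) A) *
    ((lo α * up (-β) * lo α : (Matrix (Fin 2) (Fin 2) A)ˣ) : Matrix (Fin 2) (Fin 2) A) *
    cn (u : A) = cn ((γ * u * γ⁻¹ : Aˣ) : A) *
    (((up (-e) * lo e * up (-e) : (Matrix (Fin 2) (Fin 2) A)ˣ) : Matrix (Fin 2) (Fin 2) A) *
    ((lo α * up (-β) * lo α : (Matrix (Fin 2) (Fin 2) A)ˣ) : Matrix (Fin 2) (Fin 2) A))
  rw [hua, hua', mul_assoc, step, ← mul_assoc, step2, mul_assoc]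

end core

end Pool.Agent.H40E9.FK
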