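import Pool.Agent.H40E9.FK.Core
import Pool.Agent.Q30.FJ.Crit

/-!
# Extensions with kernels which are locally supported by idempotents
-/

set_option autoImplicit false

namespace Pool.Agent.H40E9.FK

open Pool.Agent.Y110.FJ
open Pool.Agent.Y462.SS (Closed)

/-- The homomorphism `u` from the normal subgroup `N` of `G` to `H` is injective and transforms the
conjugation by `g` in the conjugation by `γ`. -/
def Realizes {G H : Type} [Group G] [Group H] {N : Subgroup G} [hN : N.Normal] (g : G) (u : N →* H)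
    (γ : H) : Prop :=
  Function.Injective u ∧ ∀ n : N, u ⟨g * n * g⁻¹, hN.conj_mem n n.2 g⟩ = γ * u n * γ⁻¹

/-- For every finite subset `E` of `N` there is an idempotent `e` of `A` with `u n - 1 ∈ e A e` for
all `n` in `E`, such that the group of the invertible `2 × 2` matrices over `e A e` is in `C`. -/
def IdempotentSupport (C : ∀ (G : Type) [Group G], Prop) {N A : Type} [Group N] [Ring A]
    (u : N →* Aˣ) : Prop :=
  ∀ E : Set N, E.Finite → ∃ e : A, e * e = e ∧ C ↥(cGL 2 e) ∧ ∀ n ∈ E, u n ∈ cU e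

/-- Conjugation by `g` on the normal subgroup `N` is given by a unit `γ` of a ring `A` whose group of
units contains `N`, and finite subsets of `N` are supported by idempotents `e` of `A` for which
`GL_2(e A e)` is in `C`. -/
def LocallySupported (C : ∀ (G : Type) [Group G], Prop) {G : Type} [Group G] (N : Subgroup G)
    [hN : N.Normal] (g : G) : Prop :=
  ∃ (A : Type) (_ : Ring A) (u : N →* Aˣ) (γ : Aˣ), Realizes g u γ ∧ IdempotentSupport C u

variable {C : ∀ (G : Type) [Group G], Prop}

theorem realized {G : Type} [Group G] (N : Subgroup G) [hN : N.Normal] (g : G)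
    (h : LocallySupported C N g) (E : Set G) (hE : E.Finite) (hEN : E ⊆ N) : Realized C g E := by
  obtain ⟨A, _, u, γ, ⟨hu, hγ⟩, hloc⟩ := h
  have hfin : (Subtype.val ⁻¹' (E ∪ (fun x => g * x * g⁻¹) '' E) : Set N).Finite :=
    (hE.union (hE.image _)).preimage Subtype.val_injective.injOn
  obtain ⟨e, he, hCe, hmem⟩ := hloc _ hfin
  have hsub : E ∪ (fun x => g * x * g⁻¹) '' E ⊆ N := by
    rintro x (hx | ⟨y, hy, rfl⟩)
    · exact hEN hx
    · exact hN.conj_mem y (hEN hy) g
  have hle : Subgroup.closure (E ∪ (fun x => g * x * g⁻¹) '' E) ≤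
      ((cU e).comap u).map N.subtype := by
    rw [Subgroup.closure_le]
    intro x hx
    exact ⟨⟨x, hsub hx⟩, hmem ⟨x, hsub hx⟩ hx, rfl⟩
  have hleN : Subgroup.closure (E ∪ (fun x => g * x * g⁻¹) '' E) ≤ N := by
    rw [Subgroup.closure_le]; exact hsub
  have hcu : ∀ (x : G) (hx : x ∈ Subgroup.closure (E ∪ (fun x => g * x * g⁻¹) '' E)),
      u ⟨x, hleN hx⟩ ∈ cU e := by
    intro x hx
    obtain ⟨y, hy, hyx⟩ := hle hx
    have : (⟨x, hleN hx⟩ : N) = y := Subtype.ext hyx.symm
    rw [this]
    exact hy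
  obtain ⟨p, hp, hconj⟩ := stab he γ
  let F : ↥(Subgroup.closure (E ∪ (fun x => g * x * g⁻¹) '' E)) →* ↥(cGL 2 e) :=
    ((Units.map (cn : A →* Matrix (Fin 2) (Fin 2) A)).comp
      (u.comp (Subgroup.inclusion hleN))).codRestrict (cGL 2 e)
      (fun x => cn_mem (hcu x.1 x.2))
  refine ⟨↥(cGL 2 e), inferInstance, F, ⟨p, hp⟩, hCe, ?_, ?_⟩
  · intro x y hxy
    have h1 : Units.map (cn : A →* Matrix (Fin 2) (Fin 2) A) (u (Subgroup.inclusion hleN x)) =
        Units.map (cn : A →* Matrix (Fin 2) (Fin 2) A) (u (Subgroup.inclusion hleN y)) :=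
      congrArg Subtype.val hxy
    have h2 : (u (Subgroup.inclusion hleN x) : A) = u (Subgroup.inclusion hleN y) := by
      have h3 := congrArg (fun z : (Matrix (Fin 2) (Fin 2) A)ˣ =>
        (z : Matrix (Fin 2) (Fin 2) A) 0 0) h1
      exact h3
    exact Subgroup.inclusion_injective hleN (hu (Units.ext h2))
  · intro x y hx hy
    apply Subtype.ext
    show Units.map cn (u (Subgroup.inclusion hleN y)) =
      p * Units.map cn (u (Subgroup.inclusion hleN x)) * p⁻¹
    have h1 : Subgroup.inclusion hleN y =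
        ⟨g * (Subgroup.inclusion hleN x : N) * g⁻¹, hN.conj_mem _ (hleN x.2) g⟩ :=
      Subtype.ext hy
    have h2 : u (Subgroup.inclusion hleN y) = γ * u (Subgroup.inclusion hleN x) * γ⁻¹ := by
      rw [h1]
      exact hγ (Subgroup.inclusion hleN x)
    have h3 : γ * u (Subgroup.inclusion hleN x) * γ⁻¹ ∈ cU e := by
      rw [← h2]
      exact hcu y.1 y.2
    rw [h2]
    exact (hconj _ (hcu x.1 x.2) h3).symm

/-- **the extension theorem** -/
theorem main (hC : ClosedE C) {G : Type} [Group G] (N : Subgroup G) [hN : N.Normal]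
    (hQ : C (G ⧸ N))
    (h : ∀ g : G, (g = 1 ∨ ∀ n : ℕ, 0 < n → g ^ n ∉ N) → LocallySupported C N g) : C G := by
  refine Pool.Agent.Y529.FJ.t_ext C hC G N ?_ hQ ?_
  · refine Q30.FJ.of_fg hC.base N fun s => ?_
    obtain ⟨A, _, u, γ, ⟨hu, hγ⟩, hloc⟩ := h 1 (Or.inl rfl)
    obtain ⟨e, he, hCe, hmem⟩ := hloc (s : Set N) s.finite_toSet
    have hle : Subgroup.closure (s : Set N) ≤ (cU e).comap u := by
      rw [Subgroup.closure_le]
      exact hmem
    refine hC.base.of_injective _ _
      (((Units.map (cn : A →* Matrix (Fin 2) (Fin 2) A)).comp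
        (u.comp (Subgroup.closure (s : Set N)).subtype)).codRestrict (cGL 2 e)
        (fun x => cn_mem (hle x.2))) ?_ hCe
    intro x y hxy
    have h1 : Units.map (cn : A →* Matrix (Fin 2) (Fin 2) A) (u x) =
        Units.map (cn : A →* Matrix (Fin 2) (Fin 2) A) (u y) := congrArg Subtype.val hxy
    have h2 : (u x : A) = u y := congrArg (fun z : (Matrix (Fin 2) (Fin 2) A)ˣ =>
        (z : Matrix (Fin 2) (Fin 2) A) 0 0) h1
    exact Subtype.ext (hu (Units.ext h2))
  · intro g hg
    exact Q30.FJ.col C hC G N g hg (fun E hE hEN => realized N g (h g (Or.inr hg)) E hE hEN)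

end Pool.Agent.H40E9.FK
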