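import Pool.Agent.H40E9.FK.Main

/-!
# Finitary automorphisms of projective modules
-/

set_option autoImplicit false

namespace Pool.Agent.H40E9.FK

open Pool.Agent.Y110.FJ
open Pool.Agent.Y462.SS (Closed)

variable {C : ∀ (G : Type) [Group G], Prop}

section corner

variable {R : Type} [Ring R]

/-- the automorphism groups of `P ^ 2` and `R ^ (2 n)` -/
noncomputable def autE {P : Type} [AddCommGroup P] [Module R P] (n : ℕ) (ε : P ≃ₗ[R] (Fin n → R)) :
    (Matrix (Fin 2) (Fin 2) (Module.End R P))ˣ ≃* ((Fin (2 * n) → R) ≃ₗ[R] (Fin (2 * n) → R)) :=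
  let E : (Fin 2 → P) ≃ₗ[R] (Fin (2 * n) → R) :=
    (LinearEquiv.piCongrRight (fun _ => ε)).trans
      ((LinearEquiv.curry R R (Fin 2) (Fin n)).symm.trans
        (LinearEquiv.funCongrLeft R R finProdFinEquiv.symm))
  (Units.mapEquiv (endVecRingEquivMatrixEnd (Fin 2) R P).symm.toMulEquiv).trans
    ((Units.mapEquiv E.conjRingEquiv.toMulEquiv).trans
      (LinearMap.GeneralLinearGroup.generalLinearEquiv R (Fin (2 * n) → R)))

theorem C_corner (hC : Closed C) (hR : ∀ n : ℕ, C ((Fin n → R) ≃ₗ[R] (Fin n → R)))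
    {L : Type} [AddCommGroup L] [Module R L] (P : Type) [AddCommGroup P] [Module R P] (n : ℕ)
    (ε : P ≃ₗ[R] (Fin n → R)) (i : P →ₗ[R] L) (p : L →ₗ[R] P) (hpi : ∀ x, p (i x) = x) :
    C ↥(cGL 2 (i ∘ₗ p : Module.End R L)) := by
  let ψ0 : Module.End R L →+ Module.End R P :=
    { toFun := fun a => p ∘ₗ a ∘ₗ i
      map_zero' := by ext x; simp
      map_add' := fun a b => by ext x; simp }
  have hψ0 : ∀ a x, ψ0 a x = p (a (i x)) := fun a x => rfl
  obtain ⟨f, hf, -⟩ := cU_inj (e := dg 2 (i ∘ₗ p : Module.End R L))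
    (B := Matrix (Fin 2) (Fin 2) (Module.End R P)) ψ0.mapMatrix
    (by
      ext j k x
      simp only [AddMonoidHom.mapMatrix_apply, Matrix.map_apply, Matrix.one_apply]
      split_ifs
      · rw [hψ0]; exact hpi x
      · rw [hψ0]; simp)
    (by
      intro a b
      ext j k x
      rw [AddMonoidHom.mapMatrix_apply, Matrix.map_apply, Matrix.mul_apply, map_sum,
        Matrix.mul_apply, LinearMap.sum_apply, LinearMap.sum_apply]
      refine Finset.sum_congr rfl fun l _ => ?_
      rw [Matrix.mul_diagonal]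
      rfl)
    (by
      intro a h1 h2 h3
      ext j k x
      have e1 : (i ∘ₗ p : Module.End R L) * a j k = a j k := by
        have := congrFun (congrFun h1 j) k
        rwa [Matrix.diagonal_mul] at this
      have e2 : a j k * (i ∘ₗ p : Module.End R L) = a j k := by
        have := congrFun (congrFun h2 j) k
        rwa [Matrix.mul_diagonal] at this
      have e3 : ψ0 (a j k) = 0 := congrFun (congrFun h3 j) k
      rw [← e2, ← e1]
      show i (p (a j k (i (p x)))) = 0
      have e4 : p (a j k (i (p x))) = 0 := by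
        have := congrArg (fun l : Module.End R P => l (p x)) e3
        exact this
      rw [e4, map_zero])
  exact hC.of_injective _ _ ((autE n ε).toMonoidHom.comp f)
    ((autE n ε).injective.comp hf) (hR _)

/-- the trivial extension of endomorphisms -/
def TT {M L : Type} [AddCommGroup M] [Module R M] [AddCommGroup L] [Module R L] (s : M →ₗ[R] L)
    (π : L →ₗ[R] M) (h : ∀ x, π (s x) = x) : Module.End R M →* Module.End R L where
  toFun f := s ∘ₗ f ∘ₗ π + (1 - s ∘ₗ π)
  map_one' := by
    ext x
    show s (π x) + (x - s (π x)) = x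
    abel
  map_mul' f g := by
    ext x
    show s (f (g (π x))) + (x - s (π x)) =
      s (f (π (s (g (π x)) + (x - s (π x))))) + ((s (g (π x)) + (x - s (π x))) -
        s (π (s (g (π x)) + (x - s (π x)))))
    have h1 : π (s (g (π x)) + (x - s (π x))) = g (π x) := by
      rw [map_add, map_sub, h, h]; abel
    rw [h1]
    abel

theorem TT_apply {M L : Type} [AddCommGroup M] [Module R M] [AddCommGroup L] [Module R L]
    (s : M →ₗ[R] L) (π : L →ₗ[R] M) (h : ∀ x, π (s x) = x) (f : Module.End R M) (x : L) :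
    TT s π h f x = x + s (f (π x) - π x) := by
  show s (f (π x)) + (x - s (π x)) = _
  rw [map_sub]; abel

end corner

/-- the elements of the module which are fixed by all elements of the set `E` -/
def fixedBy {R M N : Type} [Ring R] [AddCommGroup M] [Module R M] [Group N] (u : N →* (M ≃ₗ[R] M))
    (E : Set N) : Submodule R M where
  carrier := {m | ∀ n ∈ E, u n m = m}
  add_mem' := by
    intro a b ha hb n hn
    rw [map_add, ha n hn, hb n hn]
  zero_mem' := by
    intro n _
    rw [map_zero]
  smul_mem' := by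
    intro c a ha n hn
    rw [map_smul, ha n hn]

/-- projections on free submodules of finite rank -/
theorem exists_proj {R : Type} [Ring R] {X : Type} (W : Submodule R (X →₀ R))
    (hW : Module.Finite R ((X →₀ R) ⧸ W)) (F : Set (X →₀ R)) (hF : F.Finite) :
    ∃ (n : ℕ) (P : Type) (_ : AddCommGroup P) (_ : Module R P) (_ : P ≃ₗ[R] (Fin n → R))
      (i : P →ₗ[R] (X →₀ R)) (p : (X →₀ R) →ₗ[R] P), (∀ x, p (i x) = x) ∧
      (∀ x ∈ Submodule.span R F, i (p x) = x) ∧ ∀ x, x - i (p x) ∈ W := by
  classical
  obtain ⟨k, t, ht⟩ := Module.Finite.exists_fin (R := R) (M := (X →₀ R) ⧸ W)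
  choose l hl using fun j => W.mkQ_surjective (t j)
  let Y : Finset X := (Finset.univ.biUnion fun j => (l j).support) ∪
    hF.toFinset.biUnion fun y => y.support
  have hsup : ∀ x : X →₀ R, ∃ c ∈ Finsupp.supported R R (Y : Set X), x - c ∈ W := by
    intro x
    have h1 : W.mkQ x ∈ Submodule.span R (Set.range t) := by rw [ht]; trivial
    rw [Submodule.mem_span_range_iff_exists_fun] at h1
    obtain ⟨c, hc⟩ := h1
    refine ⟨∑ j, c j • l j, Submodule.sum_mem _ fun j _ => Submodule.smul_mem _ _ ?_, ?_⟩
    · rw [Finsupp.mem_supported]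
      intro y hy
      simp only [Y, Finset.coe_union, Set.mem_union]
      exact Or.inl (by
        rw [Finset.mem_coe, Finset.mem_biUnion]
        exact ⟨j, Finset.mem_univ j, hy⟩)
    · rw [← Submodule.ker_mkQ W, LinearMap.mem_ker, map_sub, map_sum]
      simp_rw [map_smul, hl]
      rw [hc, sub_self]
  have hc0 : ∀ x : X, ∃ c ∈ Finsupp.supported R R (Y : Set X),
      Finsupp.single x (1 : R) - c ∈ W ∧ (x ∈ Y → c = Finsupp.single x 1) := by
    intro x
    by_cases hx : x ∈ Y
    · refine ⟨Finsupp.single x 1, Finsupp.single_mem_supported R 1 (by exact_mod_cast hx), ?_,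
        fun _ => rfl⟩
      rw [sub_self]; exact W.zero_mem
    · obtain ⟨c, h1, h2⟩ := hsup (Finsupp.single x 1)
      exact ⟨c, h1, h2, fun h => absurd h hx⟩
  choose c hc1 hc2 hc3 using hc0
  let i : (↥Y →₀ R) →ₗ[R] (X →₀ R) := Finsupp.lmapDomain R R (Subtype.val : ↥Y → X)
  let r : (X →₀ R) →ₗ[R] (↥Y →₀ R) := Finsupp.lcomapDomain (Subtype.val : ↥Y → X)
    Subtype.val_injective
  have hri : ∀ x, r (i x) = x := by
    intro x
    exact Finsupp.comapDomain_mapDomain _ Subtype.val_injective x
  have hir : ∀ x ∈ Finsupp.supported R R (Y : Set X), i (r x) = x := by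
    intro x hx
    refine Finsupp.mapDomain_comapDomain _ Subtype.val_injective x ?_
    rw [Subtype.range_coe_subtype]
    exact hx
  let p : (X →₀ R) →ₗ[R] (↥Y →₀ R) := Finsupp.linearCombination R fun x => r (c x)
  have hpi : ∀ x, p (i x) = x := by
    intro x
    have : p ∘ₗ i = LinearMap.id := by
      refine Finsupp.lhom_ext' fun y => LinearMap.ext_ring ?_
      show p (i (Finsupp.single y 1)) = Finsupp.single y 1
      have h1 : i (Finsupp.single y 1) = Finsupp.single (y : X) 1 := Finsupp.mapDomain_single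
      rw [h1]
      show Finsupp.linearCombination R (fun x => r (c x)) (Finsupp.single (y : X) 1) = _
      rw [Finsupp.linearCombination_single, one_smul, hc3 y y.2, ← h1, hri]
    exact LinearMap.congr_fun this x
  have hfix : ∀ x ∈ Finsupp.supported R R (Y : Set X), i (p x) = x := by
    intro x hx
    rw [← hir x hx, hpi]
  refine ⟨Fintype.card ↥Y, ↥Y →₀ R, inferInstance, inferInstance,
    (Finsupp.linearEquivFunOnFinite R R ↥Y).trans
      (LinearEquiv.funCongrLeft R R (Fintype.equivFin ↥Y).symm), i, p, hpi, ?_, ?_⟩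
  · intro x hx
    refine hfix x ((Submodule.span_le.2 ?_) hx)
    intro y hy
    rw [SetLike.mem_coe, Finsupp.mem_supported]
    intro z hz
    simp only [Y, Finset.coe_union, Set.mem_union]
    exact Or.inr (by
      rw [Finset.mem_coe, Finset.mem_biUnion]
      exact ⟨y, hF.mem_toFinset.2 hy, hz⟩)
  · intro x
    have : ∀ x, (LinearMap.id - i ∘ₗ p : (X →₀ R) →ₗ[R] (X →₀ R)) x ∈ W := by
      intro x
      induction x using Finsupp.induction_linear with
      | zero => rw [map_zero]; exact W.zero_mem
      | add a b ha hb => rw [map_add]; exact W.add_mem ha hb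
      | single y b =>
        have h1 : Finsupp.single y b = b • Finsupp.single y (1 : R) := by
          rw [Finsupp.smul_single, smul_eq_mul, mul_one]
        rw [h1, map_smul]
        refine W.smul_mem _ ?_
        show Finsupp.single y 1 - i (Finsupp.linearCombination R (fun x => r (c x))
          (Finsupp.single y 1)) ∈ W
        rw [Finsupp.linearCombination_single, one_smul, hir _ (hc1 y)]
        exact hc2 y
    exact this x

theorem supp_mod (hC : Closed C) {R : Type} [Ring R] {M : Type} [AddCommGroup M] [Module R M]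
    [hM : Module.Projective R M] (hR : ∀ n : ℕ, C ((Fin n → R) ≃ₗ[R] (Fin n → R)))
    {G : Type} [Group G] (N : Subgroup G) [hN : N.Normal] (g : G) (u : N →* (M ≃ₗ[R] M))
    (γ : M ≃ₗ[R] M) (hu : Function.Injective u)
    (hγ : ∀ n : N, u ⟨g * n * g⁻¹, hN.conj_mem n n.2 g⟩ = γ * u n * γ⁻¹)
    (hfin : ∀ E : Set N, E.Finite → Module.Finite R (M ⧸ fixedBy u E)) :
    LocallySupported C N g := by
  obtain ⟨s, hs⟩ := hM.out
  let π : (M →₀ R) →ₗ[R] M := Finsupp.linearCombination R id
  have hs' : ∀ x, π (s x) = x := hs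
  let U : (M ≃ₗ[R] M) →* (Module.End R (M →₀ R))ˣ :=
    (Units.map (TT s π hs')).comp (LinearMap.GeneralLinearGroup.generalLinearEquiv R M).symm.toMonoidHom
  have hU : ∀ (v : M ≃ₗ[R] M) (x : M →₀ R), ((U v : Module.End R (M →₀ R))) x =
      x + s (v (π x) - π x) := fun v x => TT_apply s π hs' _ x
  refine ⟨Module.End R (M →₀ R), inferInstance, U.comp u, U γ, ⟨?_, ?_⟩, ?_⟩
  · intro a b hab
    apply hu
    ext m
    have h1 := hU (u a) (s m)
    have h2 := hU (u b) (s m)
    have h3 : ((U (u a) : Module.End R (M →₀ R))) (s m) =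
      ((U (u b) : Module.End R (M →₀ R))) (s m) := by
      have : U (u a) = U (u b) := hab
      rw [this]
    rw [h1, h2, hs'] at h3
    have h4 := congrArg π h3
    rw [map_add, map_add, hs', hs', hs'] at h4
    simpa using h4
  · intro n
    show U (u _) = U γ * U (u n) * (U γ)⁻¹
    rw [hγ, map_mul, map_mul, map_inv]
  · intro E hE
    let f : (M →₀ R) →ₗ[R] (M ⧸ fixedBy u E) := (fixedBy u E).mkQ ∘ₗ π
    have hf : Function.Surjective f := by
      intro y
      obtain ⟨m, rfl⟩ := (fixedBy u E).mkQ_surjective y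
      exact ⟨s m, by show (fixedBy u E).mkQ (π (s m)) = _; rw [hs']⟩
    have hW : ∀ x, x ∈ LinearMap.ker f ↔ π x ∈ fixedBy u E := by
      intro x
      rw [LinearMap.mem_ker]
      show (fixedBy u E).mkQ (π x) = 0 ↔ _
      rw [← LinearMap.mem_ker, Submodule.ker_mkQ]
    have hWf : Module.Finite R ((M →₀ R) ⧸ LinearMap.ker f) := by
      have := hfin E hE
      exact Module.Finite.equiv (LinearMap.quotKerEquivOfSurjective f hf).symm
    have ha0 : ∀ n ∈ E, ∀ x ∈ LinearMap.ker f, ((U (u n) : Module.End R (M →₀ R))) x = x := by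
      intro n hn x hx
      rw [hU, (hW x).1 hx n hn, sub_self, map_zero, add_zero]
    obtain ⟨k, t, ht⟩ := Module.Finite.exists_fin (R := R) (M := (M →₀ R) ⧸ LinearMap.ker f)
    choose l hl using fun j => (LinearMap.ker f).mkQ_surjective (t j)
    let F : Set (M →₀ R) := (fun q : N × Fin k =>
      ((U (u q.1) : Module.End R (M →₀ R))) (l q.2) - l q.2) '' (E ×ˢ Set.univ)
    have hF : F.Finite := (hE.prod Set.finite_univ).image _
    obtain ⟨n, P, _, _, ε, i, p, hpi, h1, h2⟩ := exists_proj (LinearMap.ker f) hWf F hF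
    have hrange : ∀ n ∈ E, ∀ x, ((U (u n) : Module.End R (M →₀ R))) x - x ∈ Submodule.span R F := by
      intro n hn x
      have h3 : (LinearMap.ker f).mkQ x ∈ Submodule.span R (Set.range t) := by rw [ht]; trivial
      rw [Submodule.mem_span_range_iff_exists_fun] at h3
      obtain ⟨c, hc⟩ := h3
      have h4 : x - ∑ j, c j • l j ∈ LinearMap.ker f := by
        rw [← Submodule.ker_mkQ (LinearMap.ker f), LinearMap.mem_ker, map_sub, map_sum]
        simp_rw [map_smul, hl]
        rw [hc, sub_self]
      have h5 := ha0 n hn _ h4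
      have h6 : ((U (u n) : Module.End R (M →₀ R))) x - x =
          ∑ j, c j • (((U (u n) : Module.End R (M →₀ R))) (l j) - l j) := by
        rw [map_sub, map_sum] at h5
        simp_rw [map_smul] at h5
        simp_rw [smul_sub]
        rw [Finset.sum_sub_distrib, sub_eq_sub_iff_sub_eq_sub]
        exact h5
      rw [h6]
      exact Submodule.sum_mem _ fun j _ => Submodule.smul_mem _ _
        (Submodule.subset_span ⟨(n, j), ⟨hn, Set.mem_univ _⟩, rfl⟩)
    refine ⟨(i ∘ₗ p : Module.End R (M →₀ R)), ?_, C_corner hC hR P n ε i p hpi, ?_⟩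
    · ext x
      show (i (p (i (p _))) : M →₀ R) _ = _
      rw [hpi]
      rfl
    · intro n hn
      refine ⟨LinearMap.ext fun x => ?_, LinearMap.ext fun x => ?_⟩
      · exact h1 _ (hrange n hn x)
      · show ((U (u n) : Module.End R (M →₀ R))) (i (p x)) - i (p x) =
          ((U (u n) : Module.End R (M →₀ R))) x - x
        have h7 := ha0 n hn _ (h2 x)
        rw [map_sub] at h7
        rw [← sub_eq_zero]
        have h8 : ((U (u n) : Module.End R (M →₀ R))) (i (p x)) - i (p x) -
          (((U (u n) : Module.End R (M →₀ R))) x - x) = (x - i (p x)) -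
          (((U (u n) : Module.End R (M →₀ R))) x - ((U (u n) : Module.End R (M →₀ R))) (i (p x))) := by
          abel
        rw [h8, h7, sub_self]

/-- for left noetherian rings -/
theorem fin_of_noeth {R : Type} [Ring R] [IsNoetherianRing R] {M : Type} [AddCommGroup M] [Module R M]
    {N : Type} [Group N] (u : N →* (M ≃ₗ[R] M))
    (h : ∀ n, (LinearMap.range ((u n : M →ₗ[R] M) - LinearMap.id)).FG) (E : Set N) (hE : E.Finite) :
    Module.Finite R (M ⧸ fixedBy u E) := by
  have hEf : Finite E := hE
  have hfg : ∀ n : E, Module.Finite R (LinearMap.range ((u n : M →ₗ[R] M) - LinearMap.id)) :=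
    fun n => Module.Finite.iff_fg.2 (h n)
  let f : M →ₗ[R] ((n : E) → LinearMap.range ((u n : M →ₗ[R] M) - LinearMap.id)) :=
    LinearMap.pi fun n => LinearMap.rangeRestrict _
  have hker : LinearMap.ker f = fixedBy u E := by
    ext x
    rw [LinearMap.mem_ker]
    constructor
    · intro hx n hn
      have h1 := congrArg Subtype.val (congrFun hx ⟨n, hn⟩)
      have h2 : u n x - x = 0 := h1
      exact sub_eq_zero.1 h2
    · intro hx
      funext n
      apply Subtype.ext
      show u n x - x = 0
      rw [sub_eq_zero]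
      exact hx n n.2
  have hN : IsNoetherian R ((n : E) → LinearMap.range ((u n : M →ₗ[R] M) - LinearMap.id)) :=
    isNoetherian_of_isNoetherianRing_of_finite _ _
  have h1 : Module.Finite R (LinearMap.range f) := Module.IsNoetherian.finite _ _
  rw [← hker]
  exact Module.Finite.equiv f.quotKerEquivRange.symm

end Pool.Agent.H40E9.FK
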